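import Pool.Agent.W945.Bd.Jac

/-!
# A nonvanishing Jacobian minor gives algebraic independence (any universe)
-/

set_option autoImplicit false

namespace Pool.Agent.W945.Bd

open MvPolynomial

variable {K : Type*} [Field K] [CharZero K]

theorem exists_pderiv_ne {r : ℕ} {P : MvPolynomial (Fin r) K} (h : ∀ c, P ≠ C c) :
    ∃ a, pderiv a P ≠ 0 := by
  by_contra hcon
  push Not at hcon
  apply h (coeff 0 P)
  ext m
  rw [coeff_C]
  by_cases hm : 0 = m
  · rw [if_pos hm, ← hm]
  · rw [if_neg hm]
    obtain ⟨a, ha⟩ : ∃ a, m a ≠ 0 := by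
      by_contra h0
      push Not at h0
      exact hm (Finsupp.ext fun a => (h0 a).symm)
    have h1 := congrArg (coeff (m - Finsupp.single a 1)) (hcon a)
    rw [coeff_pderiv, coeff_zero, tsub_add_cancel_of_le (by
      rw [Finsupp.single_le_iff]; omega)] at h1
    rcases mul_eq_zero.1 h1 with h2 | h2
    · exact h2
    · exfalso
      have h3 : (((m - Finsupp.single a 1 : Fin r →₀ ℕ) a + 1 : ℕ) : K) ≠ 0 :=
        Nat.cast_ne_zero.2 (Nat.succ_ne_zero _)
      apply h3
      push_cast
      exact h2

theorem totalDegree_pderiv_lt {r : ℕ} {P : MvPolynomial (Fin r) K} {a : Fin r}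
    (h : pderiv a P ≠ 0) : (pderiv a P).totalDegree < P.totalDegree := by
  rw [Nat.lt_iff_add_one_le]
  obtain ⟨m, hm, hmd⟩ : ∃ m ∈ (pderiv a P).support, (pderiv a P).totalDegree = m.degree := by
    have h1 : (pderiv a P).support.Nonempty := by
      rw [Finset.nonempty_iff_ne_empty]
      intro h0
      exact h (support_eq_empty.1 h0)
    obtain ⟨m, hm, hmax⟩ := Finset.exists_mem_eq_sup (pderiv a P).support h1
      (fun s => s.sum fun _ e => e)
    refine ⟨m, hm, ?_⟩
    rw [totalDegree]
    rw [hmax]
    rfl
  rw [hmd]
  rw [mem_support_iff, coeff_pderiv] at hm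
  have h2 : coeff (m + Finsupp.single a 1) P ≠ 0 := left_ne_zero_of_mul hm
  have h3 := le_totalDegree (mem_support_iff.2 h2)
  refine le_trans ?_ h3
  change _ ≤ (m + Finsupp.single a 1).degree
  rw [map_add, Finsupp.degree_single]

/-- A nonvanishing Jacobian determinant implies algebraic independence. -/
theorem algInd_of_det {r : ℕ} {B : Type*} [CommRing B] [IsDomain B] [Algebra K B]
    (D : Fin r → Derivation K B B) (T : Fin r → B)
    (h : (Matrix.of fun a b => D b (T a)).det ≠ 0) : AlgebraicIndependent K T := by
  rw [algebraicIndependent_iff]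
  have main : ∀ (n : ℕ) (P : MvPolynomial (Fin r) K), P.totalDegree ≤ n → aeval T P = 0 →
      P = 0 := by
    intro n
    induction n with
    | zero =>
      intro P hP h0
      rw [Nat.le_zero, totalDegree_eq_zero_iff_eq_C] at hP
      rw [hP] at h0 ⊢
      rw [algHom_C] at h0
      have := (algebraMap K B).injective
      rw [← map_zero (algebraMap K B)] at h0
      rw [this h0, C_0]
    | succ n ih =>
      intro P hP h0
      have h1 : ∀ a, aeval T (pderiv a P) = 0 := by
        have h2 : (fun a => aeval T (pderiv a P)) = 0 := by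
          apply Matrix.eq_zero_of_vecMul_eq_zero h
          funext b
          have h3 := der_eq_sum (D b) T P
          rw [h0, map_zero] at h3
          simp only [Matrix.vecMul, dotProduct, Matrix.of_apply, Pi.zero_apply]
          exact h3.symm
        exact fun a => congrFun h2 a
      by_contra hP0
      by_cases hc : ∀ c, P ≠ C c
      · obtain ⟨a, ha⟩ := exists_pderiv_ne hc
        have h4 := totalDegree_pderiv_lt ha
        exact ha (ih _ (by omega) (h1 a))
      · push Not at hc
        obtain ⟨c, rfl⟩ := hc
        rw [algHom_C] at h0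
        have := (algebraMap K B).injective
        rw [← map_zero (algebraMap K B)] at h0
        rw [this h0, C_0] at hP0
        exact hP0 rfl
  exact fun P => main _ P le_rfl

/-- Algebraically dependent coefficients have vanishing Jacobian minors. -/
theorem jac_eq_zero_of_dep {n q : ℕ} {V : Finset (Fin n)} {f : MvPolynomial (Fin n) K}
    (m : Fin (q + 1) → (Fin n →₀ ℕ))
    (h : ¬ AlgebraicIndependent K (fun i => coeff (m i) (split V f)))
    (l : Fin (q + 1) → Fin n) : jac V l m f = 0 := by
  by_contra hne
  exact h (algInd_of_det (fun j => pderiv (l j)) _ hne)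

end Pool.Agent.W945.Bd
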