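import Pool.Agent.W945.Bd.Jac
import Pool.Agent.H964R5.Net

/-!
# Low polynomials, degenerations, nonvanishing
-/

set_option autoImplicit false

namespace Pool.Agent.W945.Bd

open MvPolynomial Pool.Agent.H532R2.DT Pool.Agent.H964R5

/-- the variables of `f` have positive weight, and with respect to each block of variables of weight
at most `R` the `(q + 1)`-minors of the Jacobian matrix of the coefficients of `f` vanish -/
structure Low {O : Type*} [CommRing O] {n : ℕ} (w : Fin n → ℕ) (R q : ℕ)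
    (f : MvPolynomial (Fin n) O) : Prop where
  supp : ∀ m, coeff m f ≠ 0 → ∀ i, w i = 0 → m i = 0
  jac : ∀ V : Finset (Fin n), ∑ i ∈ V, w i ≤ R → ∀ (l : Fin (q + 1) → Fin n)
    (m : Fin (q + 1) → (Fin n →₀ ℕ)), jac V l m f = 0

/-- Low polynomials are a closed set. -/
theorem Low.transfer {O : Type*} [CommRing O] {F : Type*} [Field F] {J : Type*} {K : J → Type*}
    [∀ j, CommRing (K j)] {n : ℕ} (φ : O →+* F) (e : ∀ j, O →+* K j)
    (hker : ∀ x, (∀ j, e j x = 0) → φ x = 0) (g : MvPolynomial (Fin n) O) {R q s : ℕ}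
    (W : J → Fin n → ℕ) (hW : ∀ j, ∑ i, W j i ≤ s) (h : ∀ j, Low (W j) R q (map (e j) g)) :
    ∃ w : Fin n → ℕ, ∑ i, w i ≤ s ∧ Low w R q (map φ g) := by
  classical
  by_contra hcon
  push Not at hcon
  have key : ∀ w : Fin n → ℕ, ∑ i, w i ≤ s →
      ∃ x : O, φ x ≠ 0 ∧ ∀ j, Low w R q (map (e j) g) → e j x = 0 := by
    intro w hw
    by_contra hno
    push Not at hno
    apply hcon w hw
    refine ⟨?_, ?_⟩
    · intro m hm i hi
      by_contra hmi
      rw [coeff_map] at hm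
      obtain ⟨j, hj, hne⟩ := hno _ hm
      apply hmi
      refine hj.supp m ?_ i hi
      rwa [coeff_map]
    · intro V hV l m
      by_contra hne
      obtain ⟨c, hc⟩ := MvPolynomial.ne_zero_iff.1 hne
      rw [jac_map, coeff_map] at hc
      obtain ⟨j, hj, hne'⟩ := hno _ hc
      apply hne'
      rw [← coeff_map, ← jac_map, hj.jac V hV l m, coeff_zero]
  choose! x hx1 hx2 using key
  set T : Finset (Fin n → ℕ) := (Fintype.piFinset fun _ : Fin n => Finset.range (s + 1)).filter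
    (fun w => ∑ i, w i ≤ s) with hT
  have h1 : φ (∏ w ∈ T, x w) ≠ 0 := by
    rw [map_prod]
    exact Finset.prod_ne_zero_iff.2 fun w hw => hx1 w (Finset.mem_filter.1 hw).2
  apply h1
  apply hker
  intro j
  rw [map_prod]
  refine Finset.prod_eq_zero (i := W j) ?_ (hx2 (W j) (hW j) j (h j))
  rw [hT, Finset.mem_filter, Fintype.mem_piFinset]
  refine ⟨fun i => ?_, hW j⟩
  rw [Finset.mem_range, Nat.lt_succ_iff]
  exact (Finset.single_le_sum (fun _ _ => Nat.zero_le _) (Finset.mem_univ i)).trans (hW j)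

/-- Polynomials with few parameters are low. -/
theorem Low.of_hasPar {F : Type*} [Field F] {n : ℕ} {w : Fin n → ℕ} {R q : ℕ}
    {f : MvPolynomial (Fin n) F} (hsupp : f ∈ supported F {i | w i ≠ 0})
    (h : HasPar w R q f (MvPolynomial (Fin n) F)) : Low w R q f := by
  classical
  refine ⟨?_, ?_⟩
  · intro m hm i hi
    by_contra hmi
    rw [mem_supported] at hsupp
    have h1 : i ∈ f.vars := (mem_vars_iff_mem_support _).2 ⟨m, mem_support_iff.2 hm, by
      rwa [Finsupp.mem_support_iff]⟩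
    exact hsupp h1 hi
  · intro V hV l m
    refine jac_of_par (h V hV X (split V) ?_ ?_) l m
    · intro j hj
      rw [split, aeval_X, if_pos hj]
    · intro j hj
      rw [split, aeval_X, if_neg hj]

theorem Low.hasPar {F : Type*} [Field F] {n : ℕ} {w : Fin n → ℕ} {R q : ℕ}
    {f : MvPolynomial (Fin n) F} (h : Low w R q f) {σ : Type*} [Fintype σ] :
    HasPar w R q f (MvPolynomial σ F) := by
  intro V hV s ρ h1 h2
  exact hasPar_of_jac (fun l m => h.jac V hV l m) s ρ h1 h2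

theorem Low.supported {F : Type*} [Field F] {n : ℕ} {w : Fin n → ℕ} {R q : ℕ}
    {f : MvPolynomial (Fin n) F} (h : Low w R q f) : f ∈ supported F {i | w i ≠ 0} := by
  rw [mem_supported]
  intro i hi hwi
  obtain ⟨m, hm, hmi⟩ := (mem_vars_iff_mem_support _).1 hi
  rw [Finsupp.mem_support_iff] at hmi
  exact hmi (h.supp m (mem_support_iff.1 hm) i hwi)

/-- A nonvanishing point for factors of low polynomials. -/
theorem Low.seeds {F : Type*} [Field F] [CharZero F] {n : ℕ} {w : Fin n → ℕ} {s r q : ℕ}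
    {f g : MvPolynomial (Fin n) F} (h : Low w (2 * (r - 1)) q g) (hs : ∑ i, w i ≤ s) (hr : 1 ≤ r)
    (hfg : f ∣ g) (hg : g ≠ 0) (ℓ d : ℕ) (hℓ : q + 2 * (r - 1) ≤ ℓ) (hdeg : f.totalDegree ≤ d) :
    ∃ (H : Finset (Fin n)) (bl : Fin n → Fin (s / r + 1)), H.card ≤ s / r ∧ Monotone bl ∧
      ∃ (v : Fin n → ℕ) (y : Fin ℓ → ℕ) (u : Fin (s / r + 1) → ℕ),
        (∀ i, v i ≤ d) ∧ (∀ k, y k ≤ d) ∧ (∀ c, u c ≤ n * ℓ * d) ∧
        MvPolynomial.eval (fun i => if i ∈ H then (v i : F) else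
          ∑ k : Fin ℓ, (y k : F) * (u (bl i) : F) ^ (((i : ℕ) + 1) * (k : ℕ))) f ≠ 0 :=
  exists_seeds_dvd hfg h.supported s r q ℓ d hs hr h.hasPar hℓ hdeg hg

end Pool.Agent.W945.Bd
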