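import Mathlib
import Pool.Agent.H532R2.DT.Hyb

/-!
# Jacobian minors of the coefficients with respect to a block of variables

Polynomials with few parameters (`Par`) have vanishing minors, and conversely.
-/

set_option autoImplicit false

namespace Pool.Agent.W945.Bd

open MvPolynomial Pool.Agent.H532R2.DT

/-- a matrix over a domain with independent rows has a nonzero maximal minor -/
theorem exists_minor' {R J : Type*} [CommRing R] [Nontrivial R] : ∀ (v : ℕ) (P : Fin v → J → R),
    (∀ c : Fin v → R, (∀ j, ∑ b, c b * P b j = 0) → c = 0) →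
    ∃ σ : Fin v → J, (Matrix.of fun b t => P b (σ t)).det ≠ 0 := by
  intro v
  induction v with
  | zero => intro P _; exact ⟨Fin.elim0, by simp⟩
  | succ v ih =>
    intro P hP
    obtain ⟨σ, hσ⟩ := ih (fun b => P b.succ) (by
      intro c hc
      have h1 := hP (Fin.cons 0 c) (by
        intro j
        rw [Fin.sum_univ_succ]
        simp only [Fin.cons_zero, Fin.cons_succ, zero_mul, zero_add]
        exact hc j)
      funext b
      have h2 := congrFun h1 b.succ
      simpa using h2)
    by_contra hcon
    push Not at hcon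
    have key : ∀ j, ∑ b : Fin (v + 1), ((-1) ^ (b : ℕ) *
        (Matrix.of fun (b' : Fin v) (t : Fin v) => P (b.succAbove b') (σ t)).det) * P b j = 0 := by
      intro j
      have h1 := hcon (Fin.cons j σ)
      rw [Matrix.det_succ_column_zero] at h1
      rw [← h1]
      refine Finset.sum_congr rfl fun b _ => ?_
      have h2 : (Matrix.of fun (b : Fin (v + 1)) (t : Fin (v + 1)) =>
          P b ((Fin.cons j σ : Fin (v + 1) → J) t)) b 0 = P b j := by
        rw [Matrix.of_apply, Fin.cons_zero]
      have h3 : (Matrix.of fun (b : Fin (v + 1)) (t : Fin (v + 1)) =>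
          P b ((Fin.cons j σ : Fin (v + 1) → J) t)).submatrix b.succAbove Fin.succ =
          Matrix.of fun (b' : Fin v) (t : Fin v) => P (b.succAbove b') (σ t) := by
        ext1 x y
        rw [Matrix.submatrix_apply, Matrix.of_apply, Matrix.of_apply, Fin.cons_succ]
      rw [h2, h3]
      ring
    have h4 := congrFun (hP _ key) 0
    simp only [Fin.val_zero, pow_zero, one_mul, Pi.zero_apply] at h4
    apply hσ
    rw [← h4]
    rfl

section split

variable {O : Type*} [CommRing O] {n : ℕ}

open Classical in
/-- the variables of `V` remain variables, the others become coefficients -/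
noncomputable def split (V : Finset (Fin n)) :
    MvPolynomial (Fin n) O →ₐ[O] MvPolynomial (Fin n) (MvPolynomial (Fin n) O) :=
  aeval (fun j => if j ∈ V then X j else C (X j))

/-- a minor of the Jacobian matrix of the coefficients with respect to `V` -/
noncomputable def jac {q : ℕ} (V : Finset (Fin n)) (l : Fin (q + 1) → Fin n)
    (m : Fin (q + 1) → (Fin n →₀ ℕ)) (f : MvPolynomial (Fin n) O) : MvPolynomial (Fin n) O :=
  (Matrix.of fun i j => pderiv (l j) (coeff (m i) (split V f))).det

theorem split_map {O' : Type*} [CommRing O'] (e : O →+* O') (V : Finset (Fin n))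
    (f : MvPolynomial (Fin n) O) :
    split V (map e f) = map (map e) (split V f) := by
  induction f using MvPolynomial.induction_on with
  | C a =>
    rw [map_C, algHom_C, algHom_C]
    change C (C (e a)) = map (map e) (C (C a))
    rw [map_C, map_C]
  | add p q hp hq => rw [map_add, map_add, hp, hq, map_add, map_add]
  | mul_X p i hp =>
    rw [map_mul, map_mul, hp, map_mul, map_mul]
    congr 1
    rw [map_X, split, split, aeval_X, aeval_X]
    split_ifs
    · rw [map_X]
    · rw [map_C, map_X]

theorem jac_map {O' : Type*} [CommRing O'] (e : O →+* O') {q : ℕ} (V : Finset (Fin n))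
    (l : Fin (q + 1) → Fin n) (m : Fin (q + 1) → (Fin n →₀ ℕ)) (f : MvPolynomial (Fin n) O) :
    jac V l m (map e f) = map e (jac V l m f) := by
  rw [jac, jac, RingHom.map_det]
  congr 1
  ext1 i j
  rw [RingHom.mapMatrix_apply, Matrix.map_apply, Matrix.of_apply, Matrix.of_apply, split_map,
    coeff_map, pderiv_map]

end split

section minors

variable {F : Type*} [Field F] {n : ℕ}

/-- few parameters give vanishing minors -/
theorem minor_of_par {S : Type*} [CommRing S] [IsDomain S] [Algebra F S] {q : ℕ}
    {g : MvPolynomial (Fin n) S} (h : Par F q g) (D : Fin (q + 1) → Derivation F S S)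
    (m : Fin (q + 1) → (Fin n →₀ ℕ)) : (Matrix.of fun i j => D j (coeff (m i) g)).det = 0 := by
  classical
  obtain ⟨T, hT, hTg⟩ := h
  -- a combination of the derivations which kills `T`
  obtain ⟨v, hv0, hv⟩ : ∃ v : Fin (q + 1) → S, v ≠ 0 ∧ ∀ x ∈ T, ∑ j, D j x * v j = 0 := by
    let t : Fin (q + 1) → S := fun i => if hi : (i : ℕ) < T.card then (T.equivFin.symm ⟨i, hi⟩ : S)
      else 0
    have hdet : (Matrix.of fun i j => D j (t i)).det = 0 := by
      apply Matrix.det_eq_zero_of_row_eq_zero (Fin.last q)
      intro j
      rw [Matrix.of_apply]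
      simp only [t]
      rw [dif_neg (by rw [Fin.val_last]; omega), map_zero]
    obtain ⟨v, hv0, hv⟩ := Matrix.exists_mulVec_eq_zero_iff.2 hdet
    refine ⟨v, hv0, fun x hx => ?_⟩
    have h1 := congrFun hv ⟨(T.equivFin ⟨x, hx⟩ : Fin T.card), by omega⟩
    simp only [Matrix.mulVec, dotProduct, Matrix.of_apply, Pi.zero_apply, t, Fin.is_lt,
      dite_true, Fin.eta, Equiv.symm_apply_apply] at h1
    exact h1
  rw [← Matrix.exists_mulVec_eq_zero_iff]
  refine ⟨v, hv0, ?_⟩
  funext i
  have h1 := hTg (∑ j, v j • D j) (by
    intro x hx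
    rw [Pool.Agent.H530R2.der_sum_apply, ← hv x hx]
    refine Finset.sum_congr rfl fun j _ => ?_
    rw [Derivation.smul_apply, smul_eq_mul, mul_comm]) (m i)
  rw [Pool.Agent.H530R2.der_sum_apply] at h1
  simp only [Matrix.mulVec, dotProduct, Matrix.of_apply, Pi.zero_apply]
  rw [← h1]
  refine Finset.sum_congr rfl fun j _ => ?_
  rw [Derivation.smul_apply, smul_eq_mul, mul_comm]

/-- every derivation of a polynomial ring is a combination of the partial derivatives -/
theorem der_eq_sum {σ : Type*} [Fintype σ] {B : Type*} [CommRing B] [Algebra F B]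
    (D : Derivation F B B) (s : σ → B) (p : MvPolynomial σ F) :
    D (aeval s p) = ∑ l, aeval s (pderiv l p) * D (s l) := by
  classical
  induction p using MvPolynomial.induction_on with
  | C a => simp
  | add p q hp hq =>
    rw [map_add, map_add, hp, hq, ← Finset.sum_add_distrib]
    refine Finset.sum_congr rfl fun a _ => ?_
    rw [map_add, map_add, add_mul]
  | mul_X p j hp =>
    rw [map_mul, Derivation.leibniz, hp, aeval_X, smul_eq_mul, smul_eq_mul]
    have h1 : ∀ a, aeval s (pderiv a (p * X j)) * D (s a)
        = s j * (aeval s (pderiv a p) * D (s a)) + aeval s p * (if a = j then D (s a) else 0) := by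
      intro a
      rw [pderiv_mul, map_add, map_mul, map_mul, aeval_X]
      by_cases h : a = j
      · subst h
        rw [pderiv_X_self, map_one, if_pos rfl]
        ring
      · rw [pderiv_X_of_ne (Ne.symm h), map_zero, if_neg h]
        ring
    rw [Finset.sum_congr rfl fun a _ => h1 a, Finset.sum_add_distrib, ← Finset.mul_sum,
      ← Finset.mul_sum, Finset.sum_ite_eq' Finset.univ j, if_pos (Finset.mem_univ _)]
    ring

/-- vanishing minors give few parameters -/
theorem par_of_minor {σ : Type*} [Fintype σ] {q : ℕ} {g : MvPolynomial (Fin n) (MvPolynomial σ F)}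
    (h : ∀ (l : Fin (q + 1) → σ) (m : Fin (q + 1) → (Fin n →₀ ℕ)),
      (Matrix.of fun i j => pderiv (l j) (coeff (m i) g)).det = 0) : Par F q g := by
  classical
  set S := MvPolynomial σ F with hS
  set K := FractionRing S with hK
  let u : (Fin n →₀ ℕ) → (σ → K) := fun m l => algebraMap S K (pderiv l (coeff m g))
  obtain ⟨b, hb1, hb2, hb3⟩ := exists_linearIndependent K (Set.range u)
  have hfin : Finite b := hb3.finite
  have : Fintype b := Fintype.ofFinite b
  have hex : ∀ x : b, ∃ m, u m = x := fun x => hb1 x.2
  choose μ hμ using hex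
  have hcard : Fintype.card b ≤ q := by
    by_contra hcon
    push Not at hcon
    obtain ⟨ι⟩ : Nonempty (Fin (q + 1) ↪ b) := by
      rw [Function.Embedding.nonempty_iff_card_le, Fintype.card_fin]
      omega
    obtain ⟨l, hl⟩ := exists_minor' (R := S) (q + 1)
      (fun i (j : σ) => pderiv j (coeff (μ (ι i)) g)) (by
        intro c hc
        have h1 : LinearIndependent K (fun i : Fin (q + 1) => ((ι i : b) : σ → K)) :=
          hb3.comp ι ι.injective
        rw [Fintype.linearIndependent_iff] at h1
        have h2 := h1 (fun i => algebraMap S K (c i)) (by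
          funext j
          rw [Finset.sum_apply, Pi.zero_apply, ← map_zero (algebraMap S K), ← hc j, map_sum]
          refine Finset.sum_congr rfl fun i _ => ?_
          rw [Pi.smul_apply, ← hμ, smul_eq_mul, map_mul])
        funext i
        have h3 := h2 i
        exact (IsFractionRing.injective S K) (by rw [h3, Pi.zero_apply, map_zero]))
    exact hl (h l fun i => μ (ι i))
  refine ⟨Finset.univ.image fun x : b => coeff (μ x) g, ?_, fun D hD m => ?_⟩
  · exact Finset.card_image_le.trans (by rw [Finset.card_univ]; exact hcard)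
  -- the functional given by `D`
  let Λ : (σ → K) →ₗ[K] K :=
    ∑ l, (algebraMap S K (D (X l))) • (LinearMap.proj l : (σ → K) →ₗ[K] K)
  have hΛ : ∀ m', Λ (u m') = algebraMap S K (D (coeff m' g)) := by
    intro m'
    have h1 := der_eq_sum D (X : σ → S) (coeff m' g)
    have h2 : ∀ p : S, aeval (X : σ → S) p = p := fun p => by
      rw [MvPolynomial.aeval_X_left, AlgHom.id_apply]
    simp only [h2] at h1
    rw [h1, map_sum]
    simp only [Λ, LinearMap.sum_apply, LinearMap.smul_apply, LinearMap.proj_apply, smul_eq_mul, u]
    refine Finset.sum_congr rfl fun l _ => ?_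
    rw [map_mul, mul_comm]
  have h4 : ∀ x ∈ Submodule.span K b, Λ x = 0 := by
    intro x hx
    induction hx using Submodule.span_induction with
    | mem x hx =>
      have h5 := hμ ⟨x, hx⟩
      have h6 : u (μ ⟨x, hx⟩) = x := h5
      rw [← h6, hΛ, hD _ (Finset.mem_image.2 ⟨⟨x, hx⟩, Finset.mem_univ _, rfl⟩), map_zero]
    | zero => exact map_zero _
    | add x y _ _ h1 h2 => rw [map_add, h1, h2, add_zero]
    | smul a x _ h1 => rw [map_smul, h1, smul_zero]
  have h7 : Λ (u m) = 0 := by
    apply h4
    rw [hb2]
    exact Submodule.subset_span ⟨m, rfl⟩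
  rw [hΛ] at h7
  exact (IsFractionRing.injective S K) (by rw [h7, map_zero])

/-- the vanishing of the minors of `f` is inherited by all substitutions outside of `V` -/
theorem hasPar_of_jac {σ : Type*} [Fintype σ] {q : ℕ} {V : Finset (Fin n)}
    {f : MvPolynomial (Fin n) F}
    (h : ∀ (l : Fin (q + 1) → Fin n) (m : Fin (q + 1) → (Fin n →₀ ℕ)), jac V l m f = 0)
    (s : Fin n → MvPolynomial σ F)
    (ρ : MvPolynomial (Fin n) F →ₐ[F] MvPolynomial (Fin n) (MvPolynomial σ F))
    (h1 : ∀ j ∈ V, ρ (X j) = X j) (h2 : ∀ j ∉ V, ρ (X j) = C (s j)) : Par F q (ρ f) := by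
  classical
  have hρ : ∀ p, ρ p = map (aeval s : MvPolynomial (Fin n) F →ₐ[F] MvPolynomial σ F).toRingHom (split V p) := by
    intro p
    induction p using MvPolynomial.induction_on with
    | C a =>
      rw [algHom_C, algHom_C]
      change C (C a) = map _ (C (C a))
      rw [map_C]
      congr 1
      exact (algHom_C (aeval s : MvPolynomial (Fin n) F →ₐ[F] MvPolynomial σ F) a).symm
    | add p q hp hq => rw [map_add, map_add, hp, hq, map_add]
    | mul_X p i hp =>
      rw [map_mul, map_mul, hp, map_mul]
      congr 1
      rw [split, aeval_X]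
      by_cases hi : i ∈ V
      · rw [if_pos hi, map_X, h1 i hi]
      · rw [if_neg hi, map_C, h2 i hi]
        congr 1
        exact (aeval_X (R := F) s i).symm
  apply par_of_minor
  intro l m
  have hM : (Matrix.of fun i j => pderiv (l j) (coeff (m i) (ρ f))) =
      (Matrix.of fun (i : Fin (q + 1)) (x : Fin n) =>
        aeval s (pderiv x (coeff (m i) (split V f)))) *
      (Matrix.of fun (x : Fin n) (j : Fin (q + 1)) => pderiv (l j) (s x)) := by
    ext1 i j
    rw [Matrix.of_apply, Matrix.mul_apply, hρ, coeff_map]
    have h3 := der_eq_sum (pderiv (l j)) s (coeff (m i) (split V f))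
    simp only [Matrix.of_apply]
    exact h3
  rw [hM]
  by_contra hne
  obtain ⟨l', hl'⟩ := exists_minor' (R := MvPolynomial σ F) (q + 1)
    (fun i (x : Fin n) => aeval s (pderiv x (coeff (m i) (split V f)))) (by
      intro c hc
      apply Matrix.eq_zero_of_vecMul_eq_zero hne
      rw [← Matrix.vecMul_vecMul]
      have h4 : Matrix.vecMul c (Matrix.of fun (i : Fin (q + 1)) (x : Fin n) =>
          aeval s (pderiv x (coeff (m i) (split V f)))) = 0 := by
        funext x
        exact hc x
      rw [h4, Matrix.zero_vecMul])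
  apply hl'
  have h5 := congrArg (aeval s : MvPolynomial (Fin n) F →ₐ[F] MvPolynomial σ F) (h l' m)
  rw [jac, map_zero, AlgHom.map_det] at h5
  exact h5

/-- few parameters for the splitting give vanishing minors -/
theorem jac_of_par {q : ℕ} {V : Finset (Fin n)} {f : MvPolynomial (Fin n) F}
    (h : Par F q (split V f)) (l : Fin (q + 1) → Fin n) (m : Fin (q + 1) → (Fin n →₀ ℕ)) :
    jac V l m f = 0 :=
  minor_of_par h (fun j => pderiv (l j)) m

end minors

end Pool.Agent.W945.Bd
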